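import Mathlib

set_option autoImplicit false
open Set Filter Topology Real

namespace Pool.Agent.H.MP_3f0cb5_an

abbrev Mat := Matrix (Fin 2) (Fin 2) ℝ

noncomputable def gen (θ : ℝ) (b : Bool) : Mat :=
  if b then !![2, 0; 0, 1 / 2] else !![cos θ, -sin θ; sin θ, cos θ]

def sh (m : ℤ) (x : ℤ → Bool) : ℤ → Bool := fun i => x (i + m)

noncomputable def A (θ : ℝ) (x : ℤ → Bool) : ℕ → Mat
  | 0 => 1
  | n + 1 => gen θ (x n) * A θ x n

def B (θ κ : ℝ) : Set (ℤ → Bool) := {x | ∀ (m : ℤ) (n : ℕ) (i j : Fin 2), |A θ (sh m x) n i j| ≤ κ}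

noncomputable def h (θ : ℝ) : EReal := ⨆ κ : ℕ, Dynamics.coverEntropy (sh 1) (B θ κ)

def F (M : Mat) : ℝ := M 0 0 ^ 2 + M 0 1 ^ 2 + M 1 0 ^ 2 + M 1 1 ^ 2

noncomputable def act (θ : ℝ) (w : List Bool) (M : Mat) : Mat := w.foldl (fun M b => gen θ b * M) M

variable {θ : ℝ}

lemma F0 (M : Mat) : 0 ≤ F M := by unfold F; positivity

lemma FR (M : Mat) : F (gen θ false * M) = F M := by
  simp [F, gen, Matrix.mul_apply]
  linear_combination (M 0 0 ^ 2 + M 0 1 ^ 2 + M 1 0 ^ 2 + M 1 1 ^ 2) * sin_sq_add_cos_sq θ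

lemma FD (M : Mat) : F (gen θ true * M) ≤ 4 * F M := by
  simp [F, gen, Matrix.mul_apply]
  nlinarith [sq_nonneg (M 1 0), sq_nonneg (M 1 1)]

lemma dg (b : Bool) : (gen θ b).det = 1 := by
  cases b <;> simp [gen, Matrix.det_fin_two]
  linear_combination sin_sq_add_cos_sq θ

lemma act_cons (b : Bool) (w : List Bool) (M : Mat) : act θ (b :: w) M = act θ w (gen θ b * M) := rfl

lemma act_app (u v : List Bool) (M : Mat) : act θ (u ++ v) M = act θ v (act θ u M) := List.foldl_append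

lemma act_mul (w : List Bool) (M N : Mat) : act θ w (M * N) = act θ w M * N := by
  induction w generalizing M with
  | nil => rfl
  | cons b w ih => rw [act_cons, act_cons, ← mul_assoc, ih]

lemma act_det (w : List Bool) (M : Mat) : (act θ w M).det = M.det := by
  induction w generalizing M with
  | nil => rfl
  | cons b w ih => rw [act_cons, ih, Matrix.det_mul, dg, one_mul]

lemma act_F (w : List Bool) (M : Mat) : F (act θ w M) ≤ 4 ^ w.count true * F M := by
  induction w generalizing M with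
  | nil => simp [act]
  | cons b w ih =>
    refine (ih _).trans ?_
    cases b
    · simp [FR]
    · rw [List.count_cons_self, pow_succ, mul_assoc]; gcongr; exact FD M

lemma act_F' (w : List Bool) (M : Mat) : F (act θ w M) ≤ 4 ^ w.length * F M :=
  (act_F w M).trans (by have := F0 M; gcongr; exacts [by norm_num, List.count_le_length])

lemma act_R (k : ℕ) (M : Mat) : F (act θ (.replicate k false) M) = F M := by
  induction k generalizing M with
  | zero => rfl
  | succ k ih => rw [List.replicate_succ, act_cons, ih, FR]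

def K (θ : ℝ) (j : ℕ) (M : Mat) : Prop :=
  M 0 1 = 0 ∧ M 1 1 = 0 ∧ 0 ≤ M 0 0 ∧ 0 ≤ M 1 0 ∧ cos θ * M 0 0 ≤ (j + 1) * (sin θ * M 1 0)

lemma steer (s0 : 0 ≤ sin θ) (c0 : 0 < cos θ) (j : ℕ) (M : Mat) (h : K θ j M) :
    ∃ i ≤ j, K θ 0 (act θ (.replicate i false) M) := by
  induction j generalizing M with
  | zero => exact ⟨0, le_rfl, h⟩
  | succ j ih =>
    obtain ⟨h1, h2, h3, h4, h5⟩ := h
    by_cases c : cos θ * M 0 0 ≤ sin θ * M 1 0
    · exact ⟨0, by simp, h1, h2, h3, h4, by simpa [act] using c⟩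
    obtain ⟨i, hi, k⟩ := ih (gen θ false * M) (by
      simp [K, gen, Matrix.mul_apply, h1, h2] at *
      refine ⟨c.le, by positivity, ?_⟩
      have : 0 ≤ (j + 1) * (sin θ * (sin θ * M 0 0)) := by positivity
      nlinarith)
    exact ⟨i + 1, by omega, k⟩

lemma rounds (s0 : 0 ≤ sin θ) (c0 : 0 < cos θ) (sc : 4 * sin θ ≤ cos θ) (k : ℕ) (M : Mat) (h : K θ 0 M) :
    ∃ v : List Bool, v.length ≤ 4 * k ∧ v.count true ≤ k ∧ 2 ^ k * F (act θ v M) ≤ F M := by
  induction k generalizing M with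
  | zero => exact ⟨[], by simp, by simp, by simp [act]⟩
  | succ k ih =>
    obtain ⟨h1, h2, h3, h4, h5⟩ := h
    obtain ⟨i, hi, e⟩ := steer s0 c0 3 (gen θ true * M) (by
      simp [K, gen, Matrix.mul_apply, h1, h2] at *
      exact ⟨h3, h4, by linarith⟩)
    obtain ⟨v, v1, v2, v3⟩ := ih _ e
    refine ⟨true :: (.replicate i false ++ v), by simp; omega, by simpa [List.count_replicate], ?_⟩
    rw [act_R] at v3
    have : 2 * F (gen θ true * M) ≤ F M := by
      have : 4 * M 0 0 ≤ M 1 0 := le_of_mul_le_mul_left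
        (by simp at h5; nlinarith [mul_le_mul_of_nonneg_right sc h4]) c0
      simp [F, gen, Matrix.mul_apply, h1, h2]
      nlinarith
    rw [act_cons, act_app, pow_succ]
    linarith

lemma turn (t0 : 0 < θ) (t1 : θ ≤ 1) (M : Mat) (h1 : M 0 1 = 0) (h2 : M 1 1 = 0) :
    ∃ i ≤ ⌊3 * π / θ⌋₊, K θ 0 (act θ (.replicate i false) M) := by
  have r : ∀ (i : ℕ) (ρ ψ : ℝ), act θ (.replicate i false) !![ρ * sin ψ, 0; ρ * cos ψ, 0] =
      !![ρ * sin (ψ - i * θ), 0; ρ * cos (ψ - i * θ), 0] := fun i ρ => by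
    induction i with
    | zero => simp [act]
    | succ i ih =>
      intro ψ
      rw [List.replicate_succ, act_cons, show ψ - (i + 1 : ℕ) * θ = ψ - θ - i * θ by push_cast; ring, ← ih]
      congr 1
      ext a b
      fin_cases a <;> fin_cases b <;> simp [gen, sin_sub, cos_sub] <;> ring
  let w : ℂ := ⟨M 1 0, M 0 0⟩
  have e : M = !![‖w‖ * sin (w.arg + 2 * π), 0; ‖w‖ * cos (w.arg + 2 * π), 0] := by
    ext a b
    fin_cases a <;> fin_cases b <;> simp [h1, h2, w]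
  have := pi_gt_three
  have p : 0 ≤ (w.arg + 2 * π) / θ := div_nonneg (by linarith [w.neg_pi_lt_arg]) t0.le
  refine ⟨⌊(w.arg + 2 * π) / θ⌋₊, by gcongr; linarith [w.arg_le_pi], ?_⟩
  have a1 := (le_div_iff₀ t0).1 (Nat.floor_le p)
  have a2 := (div_lt_iff₀ t0).1 (Nat.lt_floor_add_one ((w.arg + 2 * π) / θ))
  rw [e, r]
  generalize w.arg + 2 * π = φ at *
  generalize (⌊φ / θ⌋₊ : ℝ) = i at *
  have b1 := sin_nonneg_of_nonneg_of_le_pi (x := φ - i * θ) (by linarith) (by linarith)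
  have b2 := cos_nonneg_of_neg_pi_div_two_le_of_le (x := φ - i * θ) (by linarith) (by linarith)
  have b3 := sin_nonneg_of_nonneg_of_le_pi (x := θ - (φ - i * θ)) (by linarith) (by linarith)
  rw [sin_sub] at b3
  simp only [K, Matrix.of_apply, Matrix.cons_val_zero, Matrix.cons_val_one, Matrix.cons_val', true_and]
  refine ⟨by positivity, by positivity, ?_⟩
  simp
  nlinarith [mul_nonneg (norm_nonneg w) b3]

lemma ret (t0 : 0 < θ) (t1 : θ ≤ 1 / 5) (m : ℕ) (M : Mat) (hd : M.det = 1) (hM : F M ≤ 4 ^ (m + 1) * 4 ^ m) :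
    ∃ v : List Bool, v.length = ⌊3 * π / θ⌋₊ + 4 * (2 * m + 1) ∧ F (act θ v M) ≤ 4 ^ (m + 1) := by
  by_cases c : F M ≤ 4 ^ (m + 1)
  · exact ⟨.replicate _ false, List.length_replicate, by rwa [act_R]⟩
  have s0 : 0 ≤ sin θ := sin_nonneg_of_nonneg_of_le_pi t0.le (by linarith [pi_gt_three])
  have sc : 4 * sin θ ≤ cos θ := by nlinarith [sin_le t0.le, one_sub_sq_div_two_le_cos (x := θ)]
  have c0 : 0 < cos θ := by nlinarith [one_sub_sq_div_two_le_cos (x := θ)]
  obtain ⟨x, y, h1, h2⟩ : ∃ x y : ℝ, F M ≤ 2 * (x ^ 2 + y ^ 2) ∧ F (M * !![-y, 0; x, 0]) = 1 := by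
    rw [Matrix.det_fin_two] at hd
    by_cases e : M 1 0 ^ 2 + M 1 1 ^ 2 ≤ M 0 0 ^ 2 + M 0 1 ^ 2
    · refine ⟨M 0 0, M 0 1, by unfold F; linarith, ?_⟩
      simp [F, Matrix.mul_apply]
      linear_combination (M 0 0 * M 1 1 - M 0 1 * M 1 0 + 1) * hd
    · refine ⟨M 1 0, M 1 1, by unfold F; linarith, ?_⟩
      simp [F, Matrix.mul_apply]
      linear_combination (M 0 0 * M 1 1 - M 0 1 * M 1 0 + 1) * hd
  have sp : ∀ N : Mat, F N * (x ^ 2 + y ^ 2) = F (N * !![x, 0; y, 0]) + F (N * !![-y, 0; x, 0]) :=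
    fun N => by simp [F, Matrix.mul_apply]; ring
  obtain ⟨i, hi, k⟩ := turn t0 (by linarith) (M * !![x, 0; y, 0]) (by simp [Matrix.mul_apply])
    (by simp [Matrix.mul_apply])
  obtain ⟨v, v1, v2, v3⟩ := rounds s0 c0 sc (2 * m + 1) _ k
  refine ⟨.replicate i false ++ v ++ .replicate (⌊3 * π / θ⌋₊ + 4 * (2 * m + 1) - (i + v.length)) false,
    by simp; omega, ?_⟩
  have q := act_F (θ := θ) (.replicate i false ++ v) (M * !![-y, 0; x, 0])
  have q' : (4 : ℝ) ^ (List.replicate i false ++ v).count true ≤ 4 ^ (2 * m + 1) := by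
    gcongr; exacts [by norm_num, by simpa [List.count_replicate]]
  rw [act_R, ← act_app, act_mul] at v3
  rw [h2, act_mul] at q
  rw [act_app, act_R]
  have a1 := sp M
  have a2 := sp (act θ (.replicate i false ++ v) M)
  have a3 := F0 (act θ (.replicate i false ++ v) M * !![x, 0; y, 0])
  have e1 : (2 : ℝ) ^ (2 * m + 1) = 2 * 4 ^ m := by rw [pow_succ, pow_mul]; norm_num [mul_comm]
  have e2 : (4 : ℝ) ^ (2 * m + 1) = 4 * (4 ^ m) ^ 2 := by ring
  have e3 : (0 : ℝ) < 4 ^ m := by positivity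
  rw [e1] at v3
  rw [e2] at q'
  generalize x ^ 2 + y ^ 2 = r at *
  rw [pow_succ] at hM c ⊢
  generalize (4 : ℝ) ^ m = T at *
  have r0 : 2 * T < r := by linarith
  have b1 : F (act θ (.replicate i false ++ v) M * !![x, 0; y, 0]) ≤ 2 * T * r :=
    le_of_mul_le_mul_left (by nlinarith) (by positivity : 0 < 2 * T)
  exact le_of_mul_le_mul_right (by nlinarith) (by linarith : 0 < r)

lemma words (t0 : 0 < θ) (t1 : θ ≤ 1 / 5) : ∃ (m : ℕ) (κ : ℝ), 0 < m ∧ ∀ n, ∃ S : Finset (List Bool),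
    S.card = 2 ^ (m * n) ∧ ∀ w ∈ S, w.length = 10 * m * n ∧ ∀ j, F (act θ (w.take j) 1) ≤ κ := by
  classical
  obtain ⟨m, hm⟩ : ∃ m, m = ⌊3 * π / θ⌋₊ + 4 := ⟨_, rfl⟩
  refine ⟨m, 4 ^ (10 * m) * 4 ^ (m + 1), by omega, fun n => ?_⟩
  have o : F 1 ≤ 4 ^ (m + 1) := by
    have : (1 : ℝ) ≤ 4 ^ m := one_le_pow₀ (by norm_num)
    simp [F, pow_succ]; linarith
  have o' : (4 : ℝ) ^ (m + 1) ≤ 4 ^ (10 * m) * 4 ^ (m + 1) :=
    le_mul_of_one_le_left (by positivity) (one_le_pow₀ (by norm_num))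
  suffices ∃ S : Finset (List Bool), S.card = 2 ^ (m * n) ∧ ∀ w ∈ S, (w.length = 10 * m * n ∧
      ∀ j, F (act θ (w.take j) 1) ≤ 4 ^ (10 * m) * 4 ^ (m + 1)) ∧ F (act θ w 1) ≤ 4 ^ (m + 1) from
    this.imp fun S h => ⟨h.1, fun w hw => (h.2 w hw).1⟩
  induction n with
  | zero => exact ⟨{[]}, by simp, by simpa [act] using ⟨o.trans o', o⟩⟩
  | succ n ih =>
    obtain ⟨S, s1, s2⟩ := ih
    have : ∀ w ∈ S, ∀ u : Fin m → Bool, ∃ v : List Bool, v.length = 9 * m ∧
        F (act θ v (act θ (w ++ .ofFn u) 1)) ≤ 4 ^ (m + 1) := fun w hw u => by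
      obtain ⟨v, v1, v2⟩ := ret t0 t1 m (act θ (w ++ .ofFn u) 1) (by simp [act_det]) (by
        rw [act_app, mul_comm]
        refine (act_F' _ _).trans ?_
        rw [List.length_ofFn]; gcongr; exact (s2 w hw).2)
      exact ⟨v, by omega, v2⟩
    choose! r r1 r2 using this
    refine ⟨(S ×ˢ Finset.univ).image fun p : List Bool × (Fin m → Bool) => p.1 ++ (.ofFn p.2 ++ r p.1 p.2),
      ?_, ?_⟩
    · rw [Finset.card_image_of_injOn, Finset.card_product, s1, mul_add, pow_add]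
      · simp
      rintro ⟨w, u⟩ hw ⟨w', u'⟩ hw' e
      simp only [Finset.coe_product, mem_prod, Finset.mem_coe] at hw hw'
      obtain ⟨e1, e2⟩ := List.append_inj e (by rw [(s2 w hw.1).1.1, (s2 w' hw'.1).1.1])
      exact Prod.ext e1 (List.ofFn_injective (List.append_inj e2 (by simp)).1)
    simp only [Finset.mem_image, Finset.mem_product]
    rintro _ ⟨⟨w, u⟩, ⟨hw, -⟩, rfl⟩
    refine ⟨⟨by simp [(s2 w hw).1.1, r1 w hw]; ring, fun j => ?_⟩, by rw [← List.append_assoc, act_app]; exact r2 w hw u⟩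
    rcases le_total j w.length with c | c
    · rw [List.take_append_of_le_length c]; exact (s2 w hw).1.2 j
    · rw [List.take_append, List.take_of_length_le c, act_app]
      refine (act_F' _ _).trans ?_
      gcongr
      exacts [F0 _, by norm_num, by simp [r1 w hw]; omega, (s2 w hw).2]

lemma mem {κ : ℝ} (w : List Bool) (hw : ∀ j, F (act θ (w.take j) 1) ≤ κ) :
    (fun i : ℤ => if 0 ≤ i then w.getD i.toNat false else false) ∈ B θ κ := by
  obtain ⟨x, hx⟩ : ∃ x, x = fun i : ℤ => if 0 ≤ i then w.getD i.toNat false else false := ⟨_, rfl⟩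
  rw [← hx]
  have a1 : ∀ n ≤ w.length, A θ x n = act θ (w.take n) 1 := fun n => by
    induction n with
    | zero => simp [A, act]
    | succ n ih =>
      intro hn
      rw [A, ih (by omega), List.take_succ, act_app]
      simp [hx, act, List.getElem?_eq_getElem hn]
  have a2 : ∀ n, F (A θ x n) ≤ κ := fun n => by
    induction n with
    | zero => exact hw 0
    | succ n ih =>
      by_cases c : n + 1 ≤ w.length
      · rw [a1 _ c]; exact hw _
      · rwa [A, show x n = false by simp [hx, List.getElem?_eq_none (by omega : w.length ≤ n)], FR]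
  have a3 : ∀ n, (A θ x n).det = 1 := fun n => by
    induction n with
    | zero => simp [A]
    | succ n ih => rw [A, Matrix.det_mul, dg, ih, one_mul]
  let G : ℤ → Mat := fun i => if 0 ≤ i then A θ x i.toNat else gen (i * θ) false
  have g1 : ∀ i, G (i + 1) = gen θ (x i) * G i := fun i => by
    by_cases c : 0 ≤ i
    · lift i to ℕ using c
      simp [G, A, show (0 : ℤ) ≤ i + 1 by omega]
    · have : G (i + 1) = gen ((i + 1 : ℤ) * θ) false := by
        by_cases d : i + 1 = 0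
        · simp [G, d, A, gen, Matrix.one_fin_two]
        · exact if_neg (by omega)
      rw [this]
      ext a b
      fin_cases a <;> fin_cases b <;> simp [G, c, hx, gen, add_mul, sin_add, cos_add] <;> ring
  have g2 : ∀ i, F (G i) ≤ κ ∧ (G i).det = 1 := fun i => by
    simp only [G]
    split_ifs
    · exact ⟨a2 _, a3 _⟩
    · exact ⟨by rw [← mul_one (gen _ _), FR]; exact hw 0, dg _⟩
  intro m n
  have g3 : A θ (sh m x) n * G m = G (n + m) := by
    induction n with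
    | zero => simp [A]
    | succ n ih => rw [A, mul_assoc, ih, Nat.cast_succ, add_right_comm, g1]; rfl
  have g4 : A θ (sh m x) n = G (n + m) * (G m).adjugate := by
    rw [← g3, mul_assoc, Matrix.mul_adjugate, (g2 m).2]; simp
  have b1 := (g2 m).1
  have b2 := (g2 (n + m)).1
  rw [g4]
  generalize G m = P at *
  generalize G (n + m) = Q at *
  unfold F at b1 b2
  simp only [Fin.forall_fin_two, Matrix.adjugate_fin_two, Matrix.mul_apply, Fin.sum_univ_two, abs_le]
  simp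
  refine ⟨⟨⟨?_, ?_⟩, ?_, ?_⟩, ⟨?_, ?_⟩, ?_, ?_⟩ <;>
  nlinarith [sq_nonneg (Q 0 0 + P 1 1), sq_nonneg (Q 0 0 - P 1 1), sq_nonneg (Q 0 1 + P 1 0),
    sq_nonneg (Q 0 1 - P 1 0), sq_nonneg (Q 0 0 + P 0 1), sq_nonneg (Q 0 0 - P 0 1), sq_nonneg (Q 0 1 + P 0 0),
    sq_nonneg (Q 0 1 - P 0 0), sq_nonneg (Q 1 0 + P 1 1), sq_nonneg (Q 1 0 - P 1 1), sq_nonneg (Q 1 1 + P 1 0),
    sq_nonneg (Q 1 1 - P 1 0), sq_nonneg (Q 1 0 + P 0 1), sq_nonneg (Q 1 0 - P 0 1), sq_nonneg (Q 1 1 + P 0 0),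
    sq_nonneg (Q 1 1 - P 0 0), sq_nonneg (Q 0 0), sq_nonneg (Q 0 1), sq_nonneg (Q 1 0), sq_nonneg (Q 1 1),
    sq_nonneg (P 0 0), sq_nonneg (P 0 1), sq_nonneg (P 1 0), sq_nonneg (P 1 1)]

end Pool.Agent.H.MP_3f0cb5_an
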