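import Pool.Agent.H.MP_3f0cb5_an.A

set_option autoImplicit false
open Set Filter Topology Real Dynamics ExpGrowth
open scoped Uniformity

namespace Pool.Agent.H.MP_3f0cb5_an

lemma it (k : ℕ) (x : ℤ → Bool) (i : ℤ) : (sh 1)^[k] x i = x (i + k) := by
  induction k generalizing i with
  | zero => simp
  | succ k ih => rw [Function.iterate_succ_apply', sh, ih]; congr 1; push_cast; ring

lemma lower {θ : ℝ} (t0 : 0 < θ) (t1 : θ ≤ 1 / 5) : ((log 2 / 10 : ℝ) : EReal) ≤ h θ := by
  classical
  obtain ⟨m, κ, m0, H⟩ := words t0 t1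
  refine le_iSup_of_le ⌈κ⌉₊ (le_trans ?_ (netEntropyEntourage_le_coverEntropy _ _
    (U := {p : (ℤ → Bool) × (ℤ → Bool) | p.1 0 = p.2 0}) (Pi.uniformContinuous_proj (fun _ : ℤ => Bool) 0
      (show {p : Bool × Bool | p.1 = p.2} ∈ 𝓤 Bool from fun p hp => hp))))
  refine Frequently.le_expGrowthSup (frequently_atTop.2 fun n => ⟨10 * m * n, by nlinarith, ?_⟩)
  obtain ⟨S, s1, s2⟩ := H n
  let f := fun (w : List Bool) (i : ℤ) => if 0 ≤ i then w.getD i.toNat false else false
  have fi : ∀ w ∈ S, ∀ w' ∈ S, (∀ k < 10 * m * n, f w k = f w' k) → w = w' := fun w hw w' hw' e =>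
    List.ext_getElem (by rw [(s2 w hw).1, (s2 w' hw').1]) fun k h1 h2 => by
      simpa [f, List.getElem?_eq_getElem h1, List.getElem?_eq_getElem h2] using e k ((s2 w hw).1 ▸ h1)
  have hnet : IsDynNetIn (sh 1) (B θ ⌈κ⌉₊) {p | p.1 0 = p.2 0} (10 * m * n) (S.image f : Finset _) := by
    refine ⟨fun x hx => ?_, fun x hx y hy hxy => ?_⟩
    · obtain ⟨w, hw, rfl⟩ := Finset.mem_image.1 hx
      exact mem w fun j => ((s2 w hw).2 j).trans (Nat.le_ceil κ)
    · obtain ⟨w, hw, rfl⟩ := Finset.mem_image.1 hx
      obtain ⟨w', hw', rfl⟩ := Finset.mem_image.1 hy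
      refine disjoint_left.2 fun u h1 h2 => hxy (congrArg f (fi w hw w' hw' fun k hk => ?_))
      have a1 : _ = _ := mem_dynEntourage.1 h1 k hk
      have a2 : _ = _ := mem_dynEntourage.1 h2 k hk
      simpa [it] using a1.trans a2.symm
  have := ENat.toENNReal_mono hnet.card_le_netMaxcard
  rw [Finset.card_image_of_injOn (f := f) fun w hw w' hw' e => fi w hw w' hw' fun k _ => congrFun e k,
    s1] at this
  refine le_trans (le_of_eq ?_) this
  rw [← EReal.coe_natCast, ← EReal.coe_mul, EReal.exp_coe,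
    show log 2 / 10 * (10 * m * n : ℕ) = (m * n : ℕ) * log 2 by push_cast; ring, exp_nat_mul,
    exp_log two_pos]
  simp [ENNReal.ofReal_pow]

lemma cnt (x : ℤ → Bool) (n : ℕ) :
    A 0 x n 0 0 = 2 ^ ((Finset.range n).filter fun i : ℕ => x i = true).card := by
  induction n with
  | zero => simp [A]
  | succ n ih =>
    rw [Finset.range_add_one, Finset.filter_insert]
    cases e : x n <;> simp [A, gen, e, Matrix.mul_apply, ih, pow_succ']

lemma upper (κ : ℕ) : coverEntropy (sh 1) (B 0 κ) ≤ 0 := by
  classical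
  have key : ∀ t : ℝ, 0 < t → t ≤ 1 → coverEntropy (sh 1) (B 0 κ) ≤ (log (t + 1) : ℝ) := fun t t0 t1 => by
    rw [coverEntropy_eq_iSup_netEntropyEntourage]
    refine iSup₂_le fun U hU => ?_
    obtain ⟨N, hN⟩ : ∃ N : ℕ, ∀ x y : ℤ → Bool, (∀ i : ℤ, |i| ≤ N → x i = y i) → (x, y) ∈ U := by
      by_contra! hh
      choose x y h1 h2 using hh
      have : Tendsto (fun N => (x N, y N)) atTop (𝓤 (ℤ → Bool)) := by
        rw [Pi.uniformity, tendsto_iInf]
        refine fun i => tendsto_comap_iff.2 fun V hV => mem_map.2 ?_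
        filter_upwards [eventually_ge_atTop i.natAbs] with N hN
        simpa [h1 N i (by rw [abs_le]; omega)] using refl_mem_uniformity hV
      exact (this.eventually hU).exists.elim h2
    rw [← ENNReal.log_ofReal_of_pos (by linarith), ← expGrowthSup_pow, netEntropyEntourage]
    refine expGrowthSup_le_of_eventually_le (b := .ofReal ((t + 1) ^ (2 * N + 1) / t ^ κ)) (by finiteness)
      (.of_forall fun n => ?_)
    change ENat.toENNReal (netMaxcard _ _ _ _) ≤ _
    simp only [netMaxcard, ENat.toENNReal_iSup]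
    refine iSup₂_le fun s hs => ?_
    let g := fun x : ℤ → Bool => (Finset.range (2 * N + 1 + n)).filter fun i : ℕ => sh (-N) x i = true
    have gi : InjOn g s := fun x hx y hy e => by
      by_contra hne
      refine disjoint_left.1 (hs.2 hx hy hne) (mem_dynEntourage.2 fun k hk => hN _ _ fun i hi => ?_)
        (mem_dynEntourage.2 fun k _ => refl_mem_uniformity hU)
      rw [abs_le] at hi
      have := Finset.ext_iff.1 e (i + k + N).toNat
      rw [it, it]
      simpa [g, sh, show (i + k + N).toNat < 2 * N + 1 + n by omega,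
        max_eq_left (show 0 ≤ i + k + N by omega)] using this
    have gc : ∀ x ∈ s, t ^ κ ≤ t ^ (g x).card := fun x hx => by
      have := hs.1 hx (-N) (2 * N + 1 + n) 0 0
      rw [cnt, abs_of_pos (by positivity)] at this
      exact pow_le_pow_of_le_one t0.le t1 (by
        exact_mod_cast (show ((g x).card : ℝ) ≤ _ by exact_mod_cast Nat.lt_two_pow_self.le).trans this)
    have : s.card * t ^ κ ≤ (t + 1) ^ (2 * N + 1 + n) := by
      have := Finset.sum_pow_mul_eq_add_pow t 1 (Finset.range (2 * N + 1 + n))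
      simp only [one_pow, mul_one, Finset.card_range] at this
      rw [← this, ← nsmul_eq_mul]
      refine (Finset.card_nsmul_le_sum s _ _ gc).trans ?_
      rw [← Finset.sum_image (f := fun S : Finset ℕ => t ^ S.card) gi]
      refine Finset.sum_le_sum_of_subset_of_nonneg (fun S hS => ?_) fun _ _ _ => by positivity
      obtain ⟨x, -, rfl⟩ := Finset.mem_image.1 hS
      exact Finset.mem_powerset.2 (Finset.filter_subset _ _)
    rw [← le_div_iff₀ (by positivity), pow_add, mul_div_right_comm] at this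
    have := ENNReal.ofReal_le_ofReal this
    rw [ENNReal.ofReal_natCast, ENNReal.ofReal_mul (by positivity), ENNReal.ofReal_pow (by positivity)] at this
    simpa using this
  refine EReal.le_of_forall_lt_iff_le.1 fun z hz => ?_
  have z0 : 0 < z := by exact_mod_cast hz
  refine (key (min z 1) (by positivity) (min_le_right _ _)).trans (EReal.coe_le_coe_iff.2 ?_)
  linarith [log_le_sub_one_of_pos (by positivity : 0 < min z 1 + 1), min_le_left z 1]

lemma zero : h 0 = 0 := le_antisymm (iSup_le upper) (le_iSup_of_le 2 (coverEntropy_nonneg _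
  ⟨_, mem [] fun j => by simp [act, F]; norm_num⟩))

end Pool.Agent.H.MP_3f0cb5_an
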